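import Pool.Agent.P.MP_838544_lc.Main

open Pool.Agent.P.MP_838544_lc

/-- Time-space tradeoff for monotone real circuits that decide Chained Multicoloured Clique with `r`
layers, `k` colours and `M` vertices in every layer and colour: width `w ≤ M^(k/13) / B` forces
more than `B^(log₂ r)` steps. -/
theorem Pool.Agent.Results.MP_838544_lc.MonotoneTradeoff.result (r k M w L B T : ℕ)
    (hk : 7 ≤ k) (hL : 2 ^ L ≤ r) (hM : (4 ^ k * r) ^ 8 ≤ M) (hB : 1 ≤ B)
    (hw : (B * w) ^ 13 ≤ M ^ k) (C : ℕ → Fin w → Gate (Fin r × Fin k × Fin M) w) (out : Fin w)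
    (hC : ∀ G : SimpleGraph (Fin r × Fin k × Fin M), Layered G →
      (0 < run C G T out ↔ ChainedClique G)) :
    B ^ L < T :=
  tradeoff L B T hk hL hM hB hw C out hC
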