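import Pool.Agent.P.MP_838544_lc.ResMain

open Pool.Agent.P.MP_838544_lc.Res

/-- Length-space tradeoff for resolution refutations of the Tseitin formula on the `k × r` grid
with doubled edges: clause space `s ≤ (4/3)^(k/2) / (4 B²)` forces more than `B^(log₂ (r/k))`
steps. -/
theorem Pool.Agent.Results.MP_838544_lc.ResolutionTradeoff.result (k r s T L B : ℕ)
    (hk : 2 ≤ k) (hL : 2 ^ L * k ≤ r) (hB : 1 ≤ B) (hs : (4 * B ^ 2 * s) ^ 2 * 3 ^ k ≤ 4 ^ k)
    (o : Fin k × Fin r) (mem : ℕ → Finset (Clause k r)) (hR : Refutation o s T mem) :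
    B ^ L < T :=
  tradeoff hk hL hB hs hR
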